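import Pool.Agent.H6.TPU.Deep

/-!
# MP_602de4_co: all minors of the deep rows of the r-th order Eulerian triangles are positive

For every `Q`, every minor (any order, arbitrary increasing rows and columns) of the `r`-th order
Eulerian triangle with rows at least `4 Q ⌈log₂ Q⌉` and columns less than `Q` is positive, for all
`r ≥ 1` at once.
-/

set_option autoImplicit false

namespace Pool.Agent.Results.MP_602de4_co.AsymptoticTP

theorem result :
    ∀ r : ℕ, 1 ≤ r →
      ∀ E : ℕ → ℕ → ℤ,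
        E 0 0 = 1 →
        (∀ k : ℕ, E 0 (k + 1) = 0) →
        (∀ n : ℕ, E (n + 1) 0 = E n 0) →
        (∀ n k : ℕ, E (n + 1) (k + 1) =
            ((k : ℤ) + 2) * E n (k + 1) + ((r : ℤ) * (n : ℤ) - (k : ℤ)) * E n k) →
        ∀ Q m : ℕ, ∀ f g : Fin m → ℕ, StrictMono f → StrictMono g →
          (∀ i, 4 * Q * Nat.clog 2 Q ≤ f i) → (∀ j, g j < Q) →
            0 < Matrix.det (Matrix.of fun i j => E (f i) (g j)) :=
  fun r hr E h00 h0 hc hs Q _ f g hf hg hfn hgQ =>
    Pool.Agent.H6.TPU.deepU r Q hr E ⟨h00, h0, hc, hs⟩ f g hf hg hfn hgQ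

end Pool.Agent.Results.MP_602de4_co.AsymptoticTP
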