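import Pool.Agent.H53.ATP.Fin
import Pool.Agent.H53.ATP.Wor
import Pool.Agent.H53.ATP.Left
import Pool.Agent.H53.ATP.Right
import Pool.Agent.H53.ATP.Rec
import Pool.Agent.H53.ATP.Base
import Pool.Agent.H53.ATP.Rep
import Pool.Agent.H53.ATP.Tilt
import Pool.Agent.H53.ATP.Chf
import Pool.Agent.H53.ATP.Lim
import Pool.Agent.H53.ATP.DetP
import Pool.Agent.H53.ATP.Han
import Pool.Agent.H53.ATP.Mid
import Pool.Agent.H53.ATP.Fek
import Pool.Agent.H53.ATPR.Fin
import Pool.Agent.H53.ATPR.Ev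
import Pool.Agent.H53.ATPR.Mean
import Pool.Agent.H53.ATPR.Logc
import Pool.Agent.H53.ATPR.Low
import Pool.Agent.H53.ATPR.Upp
import Pool.Agent.H53.ATPR.Left
import Pool.Agent.H53.ATPR.Edge1
import Pool.Agent.H53.ATPR.Edge2
import Pool.Agent.H53.ATPR.Gam
import Pool.Agent.H53.ATPR.Fac
import Pool.Agent.H53.ATPR.Right
import Pool.Agent.H53.ATPR.Win
import Pool.Agent.H53.ATPR.Var1
import Pool.Agent.H53.ATPR.Var2
import Pool.Agent.H53.ATPR.Bas
import Pool.Agent.H53.ATPR.Dsk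
import Pool.Agent.H53.ATPR.Dif
import Pool.Agent.H53.ATPR.Eta
import Pool.Agent.H53.ATPR.Pil
import Pool.Agent.H53.ATPR.Chi
import Pool.Agent.H53.ATPR.Detr
import Pool.Agent.H53.ATPR.Limm
import Pool.Agent.H53.ATPR.Limt
import Pool.Agent.H53.ATPR.Core

/-!
# MP_602de4_co: minors of every order of the r-th order Eulerian triangles, on all low rows

For every `r ≥ 1` and every order `K` there is `N` such that every minor of order at most `K` of
the `r`-th order Eulerian triangle taken on rows `≥ N` (any rows, any columns) is nonnegative, and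
positive as soon as `g i < f i` for all `i` (otherwise it vanishes for trivial reasons).
-/

set_option autoImplicit false

open Pool.Agent.H53

namespace Pool.Agent.Results.MP_602de4_co.EventuallyTP

/-- **Every order, sufficiently far down.** -/
theorem result :
    ∀ r : ℕ, 1 ≤ r → ∀ K : ℕ, ∃ N : ℕ,
      ∀ E : ℕ → ℕ → ℤ,
        E 0 0 = 1 →
        (∀ k : ℕ, E 0 (k + 1) = 0) →
        (∀ n : ℕ, E (n + 1) 0 = E n 0) →
        (∀ n k : ℕ, E (n + 1) (k + 1) =
            ((k : ℤ) + 2) * E n (k + 1) + ((r : ℤ) * (n : ℤ) - (k : ℤ)) * E n k) →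
        ∀ m : ℕ, m ≤ K → ∀ f g : Fin m → ℕ, StrictMono f → StrictMono g →
          (∀ i, N ≤ f i) →
          0 ≤ Matrix.det (Matrix.of fun i j => E (f i) (g j)) ∧
          ((∀ i, g i < f i) → 0 < Matrix.det (Matrix.of fun i j => E (f i) (g j))) := by
  intro r hr K
  rcases Nat.lt_or_ge 1 r with h2 | h1
  · have hr2 : 2 ≤ r := h2
    have hMean := ATPR.mean ATPR.ev0
    have hLogc := ATPR.logc ATPR.ev0 hMean
    have hLow := ATPR.low ATPR.root ATPR.ev0 hMean hLogc
    have hUpp := ATPR.upp ATPR.ev0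
    have hEdge1 := ATPR.edge1 ATPR.root ATPR.ev0 ATPR.gr0 hMean hLogc
    have hEdge2 := ATPR.edge2 ATPR.gr0 hEdge1
    have hWin := ATPR.win ATPR.ev0 hMean hLogc
    have hBas := ATPR.bas hMean
    have hEta := ATPR.eta0 hMean hBas (ATPR.dsk ATPR.ev0 hMean hBas) ATPR.dif
    have hCore := ATPR.core (ATPR.detr ATPR.ev0 ATPR.chi)
      (ATPR.limm hBas hEta ATPR.pil ATPR.chi (ATPR.gp ATPR.pil ATPR.chi))
      (ATPR.limt hBas ATPR.chi) ATP.han
    have hRight := ATPR.right ATPR.gr0 (ATPR.gam ATPR.gr0 hEdge1) ATPR.fac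
    have hLeft := ATPR.left ATPR.ev0 hLow
    have hVar1 := ATPR.var1 ATPR.ev0 ATPR.gr0 hLow hUpp hEdge1 hWin
    have hVar2 := ATPR.var2 ATPR.ev0 ATPR.gr0 hMean hEdge1 hEdge2 hWin
    obtain ⟨N, hN⟩ := ATPR.finalr ATP.fek ATPR.ev0 r hr
      (ATPR.solr_pos ATPR.root hMean hLeft hRight hVar1 hVar2 hCore r hr2) K
    refine ⟨N, fun E h00 h0 hc hs m hm f g hf hg hfN => ?_⟩
    have hE : ∀ n k, E n k = ATPR.er r n k := ATPR.eq_er r E h00 h0 hc hs
    simp only [hE]
    exact hN m hm f g hf hg hfN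
  · have hr1 : r = 1 := le_antisymm h1 hr
    subst hr1
    obtain ⟨N, hN⟩ := ATP.final ATP.fek ATP.wor (ATP.left ATP.wor) (ATP.right ATP.wor)
      (ATP.mid ATP.tilt (ATP.lim ATP.tilt ATP.chf) (ATP.det ATP.chf) ATP.han
        (ATP.rep ATP.recs ATP.base)) K
    refine ⟨N, fun E h00 h0 hc hs m hm f g hf hg hfN => ?_⟩
    have hE : ∀ n k, E n k = ATP.eu n k := ATP.eq_eu E h00 h0 hc (fun n k => by
      rw [hs]; push_cast; ring)
    simp only [hE]
    exact hN m hm f g hf hg hfN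

end Pool.Agent.Results.MP_602de4_co.EventuallyTP
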