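import Pool.Agent.H6.TPU.C16

/-!
# The first columns of the `r`-th order Eulerian triangle

All minors, of any order and on any rows, in the first `c(r)` columns are nonnegative, where
`c(1) = 32`, `c(r) = 24` for `2 ≤ r ≤ 6` and `c(r) = 16` for all other `r`.
-/

set_option autoImplicit false

open Pool.Agent.H37.TPC Pool.Agent.H6.TPU

namespace Pool.Agent.Results.MP_602de4_co.FirstColumns

theorem result :
    ∀ r : ℕ, 1 ≤ r →
      ∀ E : ℕ → ℕ → ℤ,
        E 0 0 = 1 →
        (∀ k : ℕ, E 0 (k + 1) = 0) →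
        (∀ n : ℕ, E (n + 1) 0 = E n 0) →
        (∀ n k : ℕ, E (n + 1) (k + 1) =
            ((k : ℤ) + 2) * E n (k + 1) + ((r : ℤ) * (n : ℤ) - (k : ℤ)) * E n k) →
        ∀ m : ℕ, ∀ f g : Fin m → ℕ, StrictMono f → StrictMono g →
          (∀ j, g j < if r = 1 then 32 else if r ≤ 6 then 24 else 16) →
          0 ≤ Matrix.det (Matrix.of fun i j => E (f i) (g j)) := by
  intro r hr E h00 h0 hc hs m f g hf hg hgC
  have hE : IsE r E := ⟨h00, h0, hc, hs⟩
  by_cases h1 : r = 1
  · subst h1
    exact (first32 E hE).1 m f g hf hg (fun j => by simpa using hgC j)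
  by_cases h6 : r ≤ 6
  · exact (first24 r (by omega) h6 E hE).1 m f g hf hg (fun j => by simpa [h1, h6] using hgC j)
  · exact (first16 r hr E hE).1 m f g hf hg (fun j => by simpa [h1, h6] using hgC j)

end Pool.Agent.Results.MP_602de4_co.FirstColumns
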