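import Pool.Agent.H52.O4.Fin
import Pool.Agent.H52.O4.All

/-!
# MP_602de4_co: all minors of order at most four of the r-th order Eulerian triangles

For every `r ≥ 1` the triangle `E (n+1, k+1) = (k+2) E (n, k+1) + (r n - k) E (n, k)` has all its
minors of order at most four (arbitrary rows and arbitrary columns) nonnegative, and such a minor
is positive when its column indices are smaller than the corresponding row indices.
-/

set_option autoImplicit false

namespace Pool.Agent.Results.MP_602de4_co.OrderFour

/-- **Order four.** For every `r ≥ 1` every minor of order at most four of the `r`-th order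
Eulerian triangle, on increasing rows `f` and increasing columns `g`, is nonnegative, and it is
positive when `g i < f i` for all `i`. -/
theorem result :
    ∀ r : ℕ, 1 ≤ r →
      ∀ E : ℕ → ℕ → ℤ,
        E 0 0 = 1 →
        (∀ k : ℕ, E 0 (k + 1) = 0) →
        (∀ n : ℕ, E (n + 1) 0 = E n 0) →
        (∀ n k : ℕ, E (n + 1) (k + 1) =
            ((k : ℤ) + 2) * E n (k + 1) + ((r : ℤ) * (n : ℤ) - (k : ℤ)) * E n k) →
        ∀ m : ℕ, m ≤ 4 → ∀ f g : Fin m → ℕ, StrictMono f → StrictMono g →
          0 ≤ Matrix.det (Matrix.of fun i j => E (f i) (g j)) ∧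
          ((∀ i, g i < f i) → 0 < Matrix.det (Matrix.of fun i j => E (f i) (g j))) := by
  intro r hr E h00 h0 hc hs m hm f g hf hg
  exact Pool.Agent.H52.O4.fin_main Pool.Agent.H52.O4.main r hr E h00 h0 hc hs m hm f g hf hg

end Pool.Agent.Results.MP_602de4_co.OrderFour
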